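import Mathlib
import Pool.Agent.H17.Telg

set_option autoImplicit false

namespace Pool.Agent.Results.MP_367a9a_gt.Undet
open Set Pool.Agent.H17.KMen

/-- The moves made in rounds `0, …, n - 1`. -/
def prev {α : Type} (a : ℕ → α) (n : ℕ) : List α := List.ofFn fun i : Fin n => a i

def P1WinsOne (X : Type) [TopologicalSpace X] : Prop :=
  ∃ τ : List (Set X) → Set (Set X), (∀ l, KCover X (τ l)) ∧
    ∀ U : ℕ → Set X, (∀ n, U n ∈ τ (prev U n)) → ¬ KCover X (range U)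

def P2WinsOne (X : Type) [TopologicalSpace X] : Prop :=
  ∃ σ : List (Set (Set X)) → Set (Set X) → Set X,
    (∀ l 𝒰, (∀ 𝒱 ∈ l, KCover X 𝒱) → KCover X 𝒰 → σ l 𝒰 ∈ 𝒰) ∧
    ∀ 𝒰 : ℕ → Set (Set X), (∀ n, KCover X (𝒰 n)) →
      KCover X (range fun n => σ (prev 𝒰 n) (𝒰 n))

def P1WinsFin (X : Type) [TopologicalSpace X] : Prop :=
  ∃ τ : List (Set (Set X)) → Set (Set X), (∀ l, KCover X (τ l)) ∧
    ∀ ℱ : ℕ → Set (Set X), (∀ n, ℱ n ⊆ τ (prev ℱ n) ∧ (ℱ n).Finite) → ¬ KCover X (⋃ n, ℱ n)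

def P2WinsFin (X : Type) [TopologicalSpace X] : Prop :=
  ∃ σ : List (Set (Set X)) → Set (Set X) → Set (Set X),
    (∀ l 𝒰, (∀ 𝒱 ∈ l, KCover X 𝒱) → KCover X 𝒰 → σ l 𝒰 ⊆ 𝒰 ∧ (σ l 𝒰).Finite) ∧
    ∀ 𝒰 : ℕ → Set (Set X), (∀ n, KCover X (𝒰 n)) → KCover X (⋃ n, σ (prev 𝒰 n) (𝒰 n))

theorem result : ∃ (X : Type) (_ : TopologicalSpace X), T3Space X ∧
    (¬ P1WinsOne X ∧ ¬ P2WinsOne X) ∧ (¬ P1WinsFin X ∧ ¬ P2WinsFin X) := by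
  refine ⟨Pool.Agent.H17.Telg.X, inferInstance, inferInstance, ⟨?_, ?_⟩, ?_, ?_⟩
  · rintro ⟨τ, h1, h2⟩
    obtain ⟨U, h3, h4⟩ := Pool.Agent.H17.Telg.noP1 τ h1
    exact h2 U h3 h4
  · rintro ⟨σ, h1, h2⟩
    obtain ⟨𝒰, h3, y, h4⟩ := Pool.Agent.H17.Telg.noP2 (fun l 𝒰 => {σ l 𝒰})
      fun l 𝒰 hl h => ⟨singleton_subset_iff.2 (h1 l 𝒰 hl h), finite_singleton _⟩
    obtain ⟨_, ⟨n, rfl⟩, h5⟩ := (h2 𝒰 h3).2.1.ge (mem_univ y)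
    exact h4 n _ rfl h5
  · rintro ⟨τ, h1, h2⟩
    obtain ⟨U, h3, h4⟩ := Pool.Agent.H17.Telg.noP1 (fun l => τ (l.map fun U => {U})) fun l => h1 _
    refine h2 (fun n => {U n}) (fun n => ⟨singleton_subset_iff.2 ?_, finite_singleton _⟩) ?_
    · have := h3 n
      rw [List.map_ofFn] at this
      exact this
    · rwa [iUnion_singleton_eq_range]
  · rintro ⟨σ, h1, h2⟩
    obtain ⟨𝒰, h3, y, h4⟩ := Pool.Agent.H17.Telg.noP2 σ h1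
    obtain ⟨U, hU, h5⟩ := (h2 𝒰 h3).2.1.ge (mem_univ y)
    obtain ⟨n, hn⟩ := mem_iUnion.1 hU
    exact h4 n U hn h5

end Pool.Agent.Results.MP_367a9a_gt.Undet
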